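import Pool.Agent.Helper71.SD.Goals

/-! Packet CNT of the disproof of MP_dcced1_gt: counting the essential facets. -/

namespace Pool.Agent.Helper71.SD.CNT

open Pool.Agent.Helper71.AHtpy SimpleGraph

/-- sets of the middle layer with prescribed behaviour on at most three directions -/
lemma ex (A₀ : Finset E) (hA : A₀.card ≤ 3) (p : E → Prop) [DecidablePred p] :
    ∃ S : Finset E, Bd 2 S ∧ ∀ i ∈ A₀, (i ∈ S ↔ p i) := by
  set P := A₀.filter p with hP
  have hPc : P.card ≤ 3 := (Finset.card_filter_le _ _).trans hA
  have hc : A₀ᶜ.card = 60 - A₀.card := by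
    rw [Finset.card_compl, Fintype.card_fin]
  obtain ⟨U, hU, hUc⟩ := Finset.exists_subset_card_eq (s := A₀ᶜ) (n := 30 - P.card) (by omega)
  have hd : Disjoint P U := by
    rw [Finset.disjoint_left]
    intro i hi hi'
    exact (Finset.mem_compl.1 (hU hi')) (Finset.mem_filter.1 hi).1
  refine ⟨P ∪ U, ?_, fun i hi => ?_⟩
  · have : (P ∪ U).card = 30 := by
      rw [Finset.card_union_of_disjoint hd, hUc]
      omega
    exact ⟨by omega, by omega⟩
  · rw [Finset.mem_union, hP, Finset.mem_filter]
    constructor
    · rintro (h | h)
      · exact h.2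
      · exact absurd hi (Finset.mem_compl.1 (hU h))
    · exact fun h => Or.inl ⟨hi, h⟩

theorem cnt_even : S_RULE → S_THE → S_SIDE1 → S_SIDE2 → S_AUT1 → S_AUT2 → S_CNT := by
  intro hRULE hTHE hS1 hS2 hA1 hA2 V G A σ₀ σ₁ hp
  have key : ∀ Z : Finset (E × Bool), (∀ p, p ∈ Z ↔ EssA A (side σ₀ σ₁ p.1 p.2)) →
      ∀ m : ℕ, (EssA A σ₁ → m = 1) → (¬ EssA A σ₁ → m = 0) → Even (1 + m + Z.card) := by
    intro Z hZ m hm1 hm0
    have h1 : ∀ i e, (i, e) ∈ Z → ∀ S, Bd 2 S → decide (i ∈ S) = e → lbl A σ₁ S = some i :=
      fun i e h => hS1 V G A σ₀ σ₁ hp i e ((hZ (i, e)).1 h)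
    have h2 : ∀ i e, (∀ S, Bd 2 S → decide (i ∈ S) = e → lbl A σ₁ S = some i) → (i, e) ∈ Z :=
      fun i e h => (hZ (i, e)).2 (hS2 V G A σ₀ σ₁ hp i e h)
    -- one direction
    have e1 : ∀ (i : E) (e : Bool), ∃ S, Bd 2 S ∧ decide (i ∈ S) = e := by
      intro i e
      obtain ⟨S, hS, h⟩ := ex {i} (by simp) (fun _ => e = true)
      refine ⟨S, hS, ?_⟩
      have := h i (by simp)
      cases e <;> simp_all
    -- two directions
    have e2 : ∀ (i k : E), i ≠ k → ∀ (e f : Bool), ∃ S, Bd 2 S ∧ decide (i ∈ S) = e ∧
        decide (k ∈ S) = f := by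
      intro i k hik e f
      obtain ⟨S, hS, h⟩ := ex {i, k} (Finset.card_le_two.trans (by norm_num))
        (fun j => if j = i then e = true else f = true)
      refine ⟨S, hS, ?_, ?_⟩
      · have := h i (by simp)
        simp only [if_true] at this
        cases e <;> simp_all
      · have := h k (by simp)
        rw [if_neg hik.symm] at this
        cases f <;> simp_all
    -- a direction and the relation of two others
    have e3 : ∀ (i j k : E), i ≠ j → ∀ (e : Bool),
        (∃ S, Bd 2 S ∧ decide (k ∈ S) = e ∧ (i ∈ S ↔ j ∈ S)) ∧
        ∃ S, Bd 2 S ∧ decide (k ∈ S) = e ∧ ¬ (i ∈ S ↔ j ∈ S) := by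
      intro i j k hij e
      constructor
      · obtain ⟨S, hS, h⟩ := ex {i, j, k} Finset.card_le_three (fun _ => e = true)
        refine ⟨S, hS, ?_, ?_⟩
        · have := h k (by simp)
          cases e <;> simp_all
        · rw [h i (by simp), h j (by simp)]
      · by_cases hjk : j = k
        · subst hjk
          obtain ⟨S, hS, h⟩ := ex {i, j, j} Finset.card_le_three
            (fun l => if l = i then e = false else e = true)
          have hi := h i (by simp)
          have hj := h j (by simp)
          simp only [if_true] at hi
          rw [if_neg hij.symm] at hj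
          refine ⟨S, hS, ?_, ?_⟩
          · cases e <;> simp_all
          · rw [hi, hj]
            cases e <;> simp
        · obtain ⟨S, hS, h⟩ := ex {i, j, k} Finset.card_le_three
            (fun l => if l = j then e = false else e = true)
          have hi := h i (by simp)
          have hj := h j (by simp)
          have hk := h k (by simp)
          simp only [if_true] at hj
          rw [if_neg hij] at hi
          rw [if_neg (Ne.symm hjk)] at hk
          refine ⟨S, hS, ?_, ?_⟩
          · cases e <;> simp_all
          · rw [hi, hj]
            cases e <;> simp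
    have case2 : ∀ i, (∀ S, Bd 2 S → lbl A σ₁ S = some i) → Even (1 + m + Z.card) := by
      intro i hi
      have hm := hm1 (hA2 V G A σ₀ σ₁ hp (Or.inr (Or.inl ⟨i, hi⟩)))
      have hZe : Z = {(i, true), (i, false)} := by
        ext ⟨k, e⟩
        constructor
        · intro hk
          obtain ⟨S, hS, hSe⟩ := e1 k e
          have h3 := h1 k e hk S hS hSe
          rw [hi S hS] at h3
          have h4 : i = k := by simpa using h3
          subst h4
          cases e <;> simp
        · intro hk
          have h3 : k = i := by
            cases e <;> simp_all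
          subst h3
          exact h2 k e fun S hS _ => hi S hS
      rw [hm, hZe, Finset.card_pair (by simp)]
      decide
    rcases hTHE (lbl A σ₁) (hRULE V G A σ₀ σ₁ hp) with h | ⟨i, h⟩ | ⟨i, j, hij, h⟩ | ⟨i, e, h⟩
    · have hm := hm1 (hA2 V G A σ₀ σ₁ hp (Or.inl h))
      have hZe : Z = ∅ := by
        rw [Finset.eq_empty_iff_forall_notMem]
        rintro ⟨k, e⟩ hk
        obtain ⟨S, hS, hSe⟩ := e1 k e
        have h3 := h1 k e hk S hS hSe
        rw [h S hS] at h3
        exact absurd h3 (by simp)
      rw [hm, hZe]
      decide
    · exact case2 i h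
    · have hm := hm1 (hA2 V G A σ₀ σ₁ hp (Or.inr (Or.inr ⟨i, j, hij, h⟩)))
      have hZe : Z = ∅ := by
        rw [Finset.eq_empty_iff_forall_notMem]
        rintro ⟨k, e⟩ hk
        obtain ⟨⟨S, hS, hSe, hS1⟩, ⟨S', hS', hSe', hS1'⟩⟩ := e3 i j k hij e
        have h3 := h1 k e hk S hS hSe
        have h4 := h1 k e hk S' hS' hSe'
        rw [(h S hS).1 hS1] at h3
        rw [(h S' hS').2 hS1'] at h4
        have h5 : i = k := by simpa using h3
        have h6 : j = k := by simpa using h4
        exact hij (h5.trans h6.symm)
      rw [hm, hZe]
      decide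
    · by_cases hall : ∀ S, Bd 2 S → lbl A σ₁ S = some i
      · exact case2 i hall
      · have hZe : Z = {(i, e)} := by
          ext ⟨k, f⟩
          rw [Finset.mem_singleton]
          constructor
          · intro hk
            have hk1 := h1 k f hk
            by_cases hki : i = k
            · subst hki
              by_cases hef : f = e
              · rw [hef]
              · exfalso
                apply hall
                intro S hS
                by_cases h5 : decide (i ∈ S) = e
                · exact h S hS h5
                · refine hk1 S hS ?_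
                  revert h5 hef
                  cases e <;> cases f <;> simp
            · exfalso
              obtain ⟨S, hS, hSe, hSf⟩ := e2 i k hki e f
              have h3 := hk1 S hS hSf
              rw [h S hS hSe] at h3
              exact hki (by simpa using h3)
          · intro hk
            have h5 : k = i ∧ f = e := by simpa using hk
            rw [h5.1, h5.2]
            exact h2 i e h
        have hness : ¬ EssA A σ₁ := by
          intro hess
          rcases hA1 V G A σ₀ σ₁ hp hess with h3 | ⟨k, h3⟩ | ⟨k, l, hkl, h3⟩
          · obtain ⟨S, hS, hSe⟩ := e1 i e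
            have h4 := h S hS hSe
            rw [h3 S hS] at h4
            exact absurd h4 (by simp)
          · obtain ⟨S, hS, hSe⟩ := e1 i e
            have h4 := h S hS hSe
            rw [h3 S hS] at h4
            have h5 : k = i := by simpa using h4
            subst h5
            exact hall h3
          · obtain ⟨⟨S, hS, hSe, hS1⟩, ⟨S', hS', hSe', hS1'⟩⟩ := e3 k l i hkl e
            have h4 := h S hS hSe
            have h5 := h S' hS' hSe'
            rw [(h3 S hS).1 hS1] at h4
            rw [(h3 S' hS').2 hS1'] at h5
            have h6 : k = i := by simpa using h4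
            have h7 : l = i := by simpa using h5
            exact hkl (h6.trans h7.symm)
        rw [hm0 hness, hZe, Finset.card_singleton]
        decide
  exact key _ (fun p => by simp) _ (fun h => if_pos h) (fun h => if_neg h)

end Pool.Agent.Helper71.SD.CNT
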